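import Pool.Agent.Q112.Sid.Defs
import Pool.Agent.Q112.Sid.Main

/-!
# Sidorenko exponents of tight cycles are linear in the length
-/

namespace Pool.Agent.Results.MP_c1a6cd_co.TightCycles

open Q112.Sid Finset

/-- The edge `{i, i+1, ..., i+r-1}` (indices modulo `r ℓ`) of the tight cycle. -/
def cycEdge (r ℓ : ℕ) (i : Fin (r * ℓ)) : Finset (Fin (r * ℓ)) :=
  (univ : Finset (Fin r)).image fun j : Fin r =>
    ⟨((i : ℕ) + (j : ℕ)) % (r * ℓ), Nat.mod_lt _ (lt_of_le_of_lt (Nat.zero_le _) i.2)⟩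

lemma mem_cycEdge {r ℓ : ℕ} {i w : Fin (r * ℓ)} :
    w ∈ cycEdge r ℓ i ↔ ∃ j : Fin r, (w : ℕ) = ((i : ℕ) + (j : ℕ)) % (r * ℓ) := by
  unfold cycEdge
  rw [mem_image]
  constructor
  · rintro ⟨j, _, rfl⟩
    exact ⟨j, rfl⟩
  · rintro ⟨j, hj⟩
    exact ⟨j, mem_univ _, Fin.ext hj.symm⟩

lemma cycEdge_card (r ℓ : ℕ) (hr : 0 < r) (hℓ : 0 < ℓ) (i : Fin (r * ℓ)) :
    (cycEdge r ℓ i).card = r := by
  unfold cycEdge
  rw [card_image_of_injective, card_univ, Fintype.card_fin]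
  intro a b h
  rw [Fin.mk.injEq] at h
  have hle : r ≤ r * ℓ := Nat.le_mul_of_pos_right r hℓ
  have h1 : (a : ℕ) ≡ b [MOD r * ℓ] := Nat.ModEq.add_left_cancel' (i : ℕ) h
  have h2 := Nat.ModEq.eq_of_lt_of_lt h1 (lt_of_lt_of_le a.2 hle) (lt_of_lt_of_le b.2 hle)
  exact Fin.ext h2

/-- The tight cycle `C_{rℓ}^{(r)}`: vertex set `ℤ/rℓℤ` (realised as `Fin (r ℓ)`), edges
`{i, i+1, ..., i+r-1}` for all `i`. -/
def tightCycle (r ℓ : ℕ) (hr : 0 < r) (hℓ : 0 < ℓ) : RGraph r where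
  n := r * ℓ
  edges := univ.image (cycEdge r ℓ)
  uniform := by
    intro e he
    rw [mem_image] at he
    obtain ⟨i, _, rfl⟩ := he
    exact cycEdge_card r ℓ hr hℓ i

lemma mod_helper {r ℓ : ℕ} (x : ℕ) : x % (r * ℓ) % r = x % r := Nat.mod_mul_right_mod x r ℓ

lemma tightCycle_partite (r ℓ : ℕ) (hr : 0 < r) (hℓ : 0 < ℓ) :
    IsPartite (tightCycle r ℓ hr hℓ) := by
  refine ⟨fun v => ⟨(v : ℕ) % r, Nat.mod_lt _ hr⟩, ?_⟩
  intro e he k
  have he' := mem_image.1 (show (e : Finset (Fin (r * ℓ))) ∈ univ.image (cycEdge r ℓ) from he)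
  obtain ⟨i, _, rfl⟩ := he'
  -- the offset of the vertex of class `k`
  obtain ⟨j, hj1, hj2⟩ : ∃ j : ℕ, j < r ∧ ((i : ℕ) + j) % r = k := by
    refine ⟨((k : ℕ) + (r - (i : ℕ) % r)) % r, Nat.mod_lt _ hr, ?_⟩
    have h1 : (i : ℕ) % r < r := Nat.mod_lt _ hr
    have h2 : ((i : ℕ) + ((k : ℕ) + (r - (i : ℕ) % r)) % r) % r =
        ((i : ℕ) % r + ((k : ℕ) + (r - (i : ℕ) % r))) % r := by
      rw [Nat.add_mod_mod, Nat.mod_add_mod]
    rw [h2]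
    have h3 : (i : ℕ) % r + ((k : ℕ) + (r - (i : ℕ) % r)) = (k : ℕ) + r := by omega
    rw [h3, Nat.add_mod_right, Nat.mod_eq_of_lt k.2]
  refine ⟨⟨((i : ℕ) + j) % (r * ℓ), Nat.mod_lt _ (lt_of_le_of_lt (Nat.zero_le _) i.2)⟩,
    ⟨?_, ?_⟩, ?_⟩
  · exact mem_image.2 ⟨⟨j, hj1⟩, mem_univ _, rfl⟩
  · apply Fin.ext
    simp only
    rw [mod_helper, hj2]
  · rintro w ⟨hw, hwk⟩
    obtain ⟨j', hj'⟩ := (mem_cycEdge (w := (w : Fin (r * ℓ)))).1 hw
    have h1 : (w : ℕ) % r = k := congrArg Fin.val hwk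
    rw [hj', mod_helper] at h1
    have h2 : (i : ℕ) + j' ≡ (i : ℕ) + j [MOD r] := h1.trans hj2.symm
    have h3 : (j' : ℕ) ≡ j [MOD r] := Nat.ModEq.add_left_cancel' _ h2
    have h4 := Nat.ModEq.eq_of_lt_of_lt h3 j'.2 hj1
    apply Fin.ext
    rw [hj', h4]

lemma tightCycle_degree (r ℓ : ℕ) (hr : 0 < r) (hℓ : 0 < ℓ)
    (v : Fin (tightCycle r ℓ hr hℓ).n) : degree (tightCycle r ℓ hr hℓ) v ≤ r := by
  have hv : (v : ℕ) < r * ℓ := v.2
  have hsub : ((tightCycle r ℓ hr hℓ).edges.filter fun e => v ∈ e) ⊆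
      (univ : Finset (Fin r)).image fun j : Fin r =>
        cycEdge r ℓ ⟨((v : ℕ) + (r * ℓ - j)) % (r * ℓ), Nat.mod_lt _ (by omega)⟩ := by
    intro e he
    rw [mem_filter] at he
    have he' := mem_image.1
      (show (e : Finset (Fin (r * ℓ))) ∈ univ.image (cycEdge r ℓ) from he.1)
    obtain ⟨i, _, rfl⟩ := he'
    obtain ⟨j, h1⟩ := (mem_cycEdge (w := (v : Fin (r * ℓ)))).1 he.2
    rw [mem_image]
    refine ⟨j, mem_univ _, ?_⟩
    congr 1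
    apply Fin.ext
    simp only
    have hle : r ≤ r * ℓ := Nat.le_mul_of_pos_right r hℓ
    have hj2 := j.2
    rw [h1, Nat.mod_add_mod]
    have h2 : (i : ℕ) + j + (r * ℓ - j) = i + r * ℓ := by omega
    rw [h2, Nat.add_mod_right, Nat.mod_eq_of_lt i.2]
  unfold degree
  calc _ ≤ _ := card_le_card hsub
    _ ≤ _ := card_image_le
    _ = r := by simp

/-- **Main result.** For every integer `r ≥ 2` (in particular for every `r ≥ 4`) there is a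
constant `K_r` depending only on `r` such that `s(C_{rℓ}^{(r)}) ≤ K_r r ℓ` for all `ℓ ≥ 2`
(even for all `ℓ ≥ 1`). -/
theorem result : ∀ (r : ℕ) (hr : 2 ≤ r), ∃ K : ℕ, ∀ (ℓ : ℕ) (hℓ : 1 ≤ ℓ),
    sidExp (tightCycle r ℓ (by omega) (by omega)) ≤ (((K * (r * ℓ) : ℕ) : ℝ) : EReal) := by
  intro r hr
  refine ⟨r * (2 * (r - 1) * r + 1) ^ r, ?_⟩
  intro ℓ hℓ
  refine (sidExp_le hr _ (tightCycle_partite r ℓ (by omega) (by omega)) r
    (tightCycle_degree r ℓ (by omega) (by omega))).trans ?_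
  apply EReal.coe_le_coe_iff.2
  have h1 : (tightCycle r ℓ (by omega) (by omega)).edges.card ≤ r * ℓ := by
    refine card_image_le.trans ?_
    simp
  exact_mod_cast Nat.mul_le_mul_left _ h1

end Pool.Agent.Results.MP_c1a6cd_co.TightCycles
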